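import Mathlib

namespace Pool.Agent.Results.MP_484523_pr.Nested

/-- majority of three bits -/
def maj (a b c : Bool) : Bool := (a && b) || (a && c) || (b && c)

/-- trajectory of deterministic NEC-voting; `TR y n` is the configuration at time `n - 1` -/
def TR (y : ℤ × ℤ → Bool) : ℕ → ℤ × ℤ → Bool
  | 0 => y
  | n + 1 => fun s => maj (TR y n s) (TR y n (s + (1, 0))) (TR y n (s + (0, 1)))

/-- every finite perturbation of `y` has a trajectory that is a finite perturbation of that of `y` -/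
def Attractor (y : ℤ × ℤ → Bool) : Prop :=
  ∀ y' : ℤ × ℤ → Bool, {s | y' s ≠ y s}.Finite →
    {p : (ℤ × ℤ) × ℕ | TR y' p.2 p.1 ≠ TR y p.2 p.1}.Finite

def phi (t : ℕ) (s : ℤ × ℤ) : ℤ := max (-s.1) (max (-s.2) (s.1 + s.2 + t))

lemma key (g : ℤ → Bool) (y : ℤ × ℤ → Bool) (N : ℤ) (h : ∀ s, N < phi 0 s → y s = g (phi 0 s))
    (t : ℕ) : ∀ s, N < phi t s → TR y t s = g (phi t s) := by
  induction t with
  | zero => exact h
  | succ t ih =>
    rintro ⟨a, b⟩ hs
    have h3 : (phi t (a, b) = phi (t + 1) (a, b) ∧ phi t ((a, b) + (1, 0)) = phi (t + 1) (a, b)) ∨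
        (phi t (a, b) = phi (t + 1) (a, b) ∧ phi t ((a, b) + (0, 1)) = phi (t + 1) (a, b)) ∨
        (phi t ((a, b) + (1, 0)) = phi (t + 1) (a, b) ∧
          phi t ((a, b) + (0, 1)) = phi (t + 1) (a, b)) := by
      simp only [phi, Prod.mk_add_mk]
      push_cast
      omega
    simp only [TR]
    rcases h3 with ⟨h1, h2⟩ | ⟨h1, h2⟩ | ⟨h1, h2⟩ <;>
      rw [ih _ (hs.trans_eq h1.symm), ih _ (hs.trans_eq h2.symm), h1, h2] <;>
      cases g (phi (t + 1) (a, b)) <;> simp [maj]

def y0 (s : ℤ × ℤ) : Bool := decide (phi 0 s % 2 = 0)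

lemma TR_y0 (t : ℕ) (s : ℤ × ℤ) : TR y0 t s = decide (phi t s % 2 = 0) :=
  key (fun m => decide (m % 2 = 0)) y0 (-1) (fun _ _ => rfl) t s (by simp only [phi]; omega)

theorem result : ∃ y : ℤ × ℤ → Bool, Attractor y ∧
    (∀ n, {s | TR y n s = true}.Infinite ∧ {s | TR y n s = false}.Infinite) ∧
    ∀ n, TR y (n + 1) (0, 0) ≠ TR y n (0, 0) := by
  refine ⟨y0, fun y' hy => ?_, fun n => ⟨?_, ?_⟩, fun n => ?_⟩
  · obtain ⟨N, hN⟩ := (hy.image (phi 0)).bddAbove
    have h1 := key (fun m => decide (m % 2 = 0)) y' N fun s hs => by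
      by_contra hne
      exact absurd (hN ⟨s, hne, rfl⟩) (not_le.2 hs)
    refine (((Set.finite_Icc (-N) (2 * N)).prod (Set.finite_Icc (-N) (2 * N))).prod
      (Set.finite_Iic (3 * N).toNat)).subset ?_
    rintro ⟨⟨a, b⟩, t⟩ hp
    have h2 : phi t (a, b) ≤ N := by
      by_contra hlt
      exact hp ((h1 t _ (not_le.1 hlt)).trans (TR_y0 t _).symm)
    simp only [phi] at h2
    simp only [Set.mem_prod, Set.mem_Icc, Set.mem_Iic]
    omega
  · refine Set.infinite_of_injective_forall_mem (f := fun k : ℕ => ((n + 2 * k : ℤ), (0 : ℤ)))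
      (fun a b hab => by simp at hab; omega) fun k => ?_
    simp only [Set.mem_ofPred_eq, TR_y0, phi, decide_eq_true_eq]
    omega
  · refine Set.infinite_of_injective_forall_mem (f := fun k : ℕ => ((n + 2 * k + 1 : ℤ), (0 : ℤ)))
      (fun a b hab => by simp at hab; omega) fun k => ?_
    simp only [Set.mem_ofPred_eq, TR_y0, phi, decide_eq_false_iff_not]
    omega
  · simp only [TR_y0, phi, ne_eq, decide_eq_decide]
    push_cast
    omega

end Pool.Agent.Results.MP_484523_pr.Nested
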